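import Pool.Agent.H43.G.R_seed8.W93.HD4
import Pool.Agent.H43.MA.Ppl

/-! # Prime pairs with a given, arbitrarily large, difference (helper43) -/

set_option autoImplicit false

namespace Pool.Agent.H43.PT

open Finset Filter
open Pool.Agent.H373R2.T7 Pool.Agent.W93.HD

lemma lamz_prime (y m : ℕ) (hm : m.Prime) (hy : y < m) : lamz y m = (Vz y)⁻¹ := by
  unfold lamz
  rw [if_pos]
  intro p hp hd
  have h1 := (mem_filter.1 hp)
  have h2 := (Nat.prime_dvd_prime_iff_eq h1.2 hm).1 hd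
  have h3 := (mem_Icc.1 h1.1).2
  omega

/-- upper bound for prime pairs, uniform in the difference -/
theorem pairs : ∃ C : ℝ, 1 ≤ C ∧ ∃ X0 : ℕ, ∀ X : ℕ, X0 ≤ X → ∀ h : ℕ, 1 ≤ h →
    (((Icc 1 X).filter (fun m => m.Prime ∧ (m + h).Prime)).card : ℝ) ≤ C * X / Real.log X ^ 2 * gg h := by
  classical
  obtain ⟨K, x0, hK, hP⟩ := pair_lamz
  obtain ⟨C1, hC1, hV⟩ := Vz_log_le
  have hK0 : (0 : ℝ) < K := by exact_mod_cast (by omega : 0 < K)
  have hK4 : (4 : ℝ) ≤ K := by exact_mod_cast hK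
  have e1 : ∀ᶠ X : ℕ in atTop, (max (x0 : ℝ) 3) + 1 ≤ (X : ℝ) ^ (1 / (2 * K) : ℝ) :=
    ((tendsto_rpow_atTop (by positivity)).comp (tendsto_natCast_atTop_atTop (R := ℝ))).eventually_ge_atTop _
  obtain ⟨n1, hn1⟩ := eventually_atTop.1 e1
  obtain ⟨n2, hn2⟩ := ev_log' 2 1
  refine ⟨1 + 20 * K ^ 2 * C1 ^ 2, by nlinarith [sq_nonneg (K * C1 : ℝ)], max n1 (max n2 3), fun X hX h hh => ?_⟩
  have b1 := hn1 X ((le_max_left _ _).trans hX)
  have b2 := hn2 X (((le_max_left _ _).trans (le_max_right _ _)).trans hX)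
  have b3 : 3 ≤ X := ((le_max_right _ _).trans (le_max_right _ _)).trans hX
  rw [one_mul] at b2
  have hX3 : (3 : ℝ) ≤ X := by exact_mod_cast b3
  have hX0 : (0 : ℝ) < X := by linarith
  have hX1 : (1 : ℝ) ≤ X := by linarith
  have hL0 : 0 < Real.log X := Real.log_pos (by linarith)
  set t : ℝ := (X : ℝ) ^ (1 / (2 * K) : ℝ) with ht
  have ht4 : 4 ≤ t := le_trans (by linarith [le_max_right (x0 : ℝ) 3]) b1
  have htx : (x0 : ℝ) + 1 ≤ t := le_trans (by linarith [le_max_left (x0 : ℝ) 3]) b1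
  have ht2 : (X : ℝ) ^ (1 / (K : ℝ)) = t ^ 2 := by
    rw [ht, ← Real.rpow_natCast, ← Real.rpow_mul hX0.le]
    congr 1
    push_cast
    field_simp
  set y : ℕ := ⌊(X : ℝ) ^ (1 / (K : ℝ))⌋₊ with hy
  have hy1 : (y : ℝ) ≤ (X : ℝ) ^ (1 / (K : ℝ)) := Nat.floor_le (by positivity)
  have hy2 : t ≤ y := by
    have h1 := Nat.lt_floor_add_one ((X : ℝ) ^ (1 / (K : ℝ)))
    rw [← hy, ht2] at h1
    nlinarith
  have hyx0 : x0 ≤ y := by
    have : (x0 : ℝ) ≤ y := by linarith
    exact_mod_cast this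
  have hy3 : 3 ≤ y := by
    have : (3 : ℝ) ≤ y := by linarith
    exact_mod_cast this
  have hyK : y ^ K ≤ X := by
    have h1 : (y : ℝ) ^ K ≤ X := by
      calc (y : ℝ) ^ K ≤ ((X : ℝ) ^ (1 / (K : ℝ))) ^ K := pow_le_pow_left₀ (by positivity) hy1 K
        _ = X := by
            rw [← Real.rpow_natCast, ← Real.rpow_mul hX0.le, one_div, inv_mul_cancel₀ hK0.ne', Real.rpow_one]
    exact_mod_cast h1
  have hlogy : Real.log X ≤ 2 * K * Real.log y := by
    have h1 : Real.log t ≤ Real.log y := Real.log_le_log (by linarith) hy2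
    rw [ht, Real.log_rpow hX0] at h1
    have h2 : 2 * K * (1 / (2 * K) * Real.log X) ≤ 2 * K * Real.log y := mul_le_mul_of_nonneg_left h1 (by positivity)
    have h3 : 2 * (K : ℝ) * (1 / (2 * K) * Real.log X) = Real.log X := by field_simp
    linarith
  have hyq : (y : ℝ) ≤ X / Real.log X ^ 2 := by
    have h1 : (y : ℝ) ≤ √X := by
      refine hy1.trans ?_
      rw [Real.sqrt_eq_rpow]
      apply Real.rpow_le_rpow_of_exponent_le hX1
      rw [one_div, one_div]
      apply inv_anti₀ (by norm_num)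
      linarith
    rw [le_div_iff₀ (by positivity)]
    calc (y : ℝ) * Real.log X ^ 2 ≤ √X * √X := mul_le_mul h1 b2 (by positivity) (by positivity)
      _ = X := Real.mul_self_sqrt hX0.le
  obtain ⟨-, hS⟩ := hP X y hyx0 hyK
  have hS := hS h hh
  have hVp : 0 < Vz y := Vz_pos y
  have hgg := one_le_gg h
  set F := (Icc 1 X).filter (fun m => m.Prime ∧ (m + h).Prime) with hF
  have hsub : F ⊆ Icc 1 y ∪ F.filter (fun m => y < m) := by
    intro m hm
    rw [mem_union, mem_filter]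
    by_cases h1 : y < m
    · right; exact ⟨hm, h1⟩
    · left
      have h2 := (mem_Icc.1 (mem_filter.1 hm).1).1
      exact mem_Icc.2 ⟨h2, by omega⟩
  have hc1 : (F.card : ℝ) ≤ y + (F.filter (fun m => y < m)).card := by
    have h1 := (card_le_card hsub).trans (card_union_le _ _)
    rw [Nat.card_Icc, Nat.add_sub_cancel] at h1
    exact_mod_cast h1
  have hc2 : ((F.filter (fun m => y < m)).card : ℝ) * ((Vz y)⁻¹ * (Vz y)⁻¹) ≤ 5 * X * gg h := by
    refine le_trans ?_ hS
    have h1 : ((F.filter (fun m => y < m)).card : ℝ) * ((Vz y)⁻¹ * (Vz y)⁻¹) =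
        ∑ a ∈ F.filter (fun m => y < m), lamz y a * lamz y (a + h) := by
      rw [← nsmul_eq_mul, ← sum_const]
      refine sum_congr rfl fun m hm => ?_
      have h2 := mem_filter.1 hm
      have h3 := (mem_filter.1 h2.1).2
      rw [lamz_prime y m h3.1 h2.2, lamz_prime y (m + h) h3.2 (by omega)]
    rw [h1]
    apply sum_le_sum_of_subset_of_nonneg
    · exact (filter_subset _ _).trans (filter_subset _ _)
    · intro m _ _
      exact mul_nonneg (lamz_nonneg _ _) (lamz_nonneg _ _)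
  have hc3 : ((F.filter (fun m => y < m)).card : ℝ) ≤ 5 * X * gg h * Vz y ^ 2 := by
    have h1 := mul_le_mul_of_nonneg_right hc2 (show 0 ≤ Vz y ^ 2 by positivity)
    refine le_trans (le_of_eq ?_) h1
    field_simp
  have hVy : Vz y ≤ 2 * K * C1 / Real.log X := by
    rw [le_div_iff₀ hL0]
    have h1 := hV y hy3
    calc Vz y * Real.log X ≤ Vz y * (2 * K * Real.log y) := mul_le_mul_of_nonneg_left hlogy hVp.le
      _ = 2 * K * (Vz y * Real.log y) := by ring
      _ ≤ 2 * K * C1 := mul_le_mul_of_nonneg_left h1 (by positivity)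
  have hV2 : Vz y ^ 2 ≤ 4 * K ^ 2 * C1 ^ 2 / Real.log X ^ 2 := by
    calc Vz y ^ 2 ≤ (2 * K * C1 / Real.log X) ^ 2 := pow_le_pow_left₀ hVp.le hVy 2
      _ = _ := by rw [div_pow]; ring
  calc (F.card : ℝ) ≤ y + (F.filter (fun m => y < m)).card := hc1
    _ ≤ X / Real.log X ^ 2 + 5 * X * gg h * (4 * K ^ 2 * C1 ^ 2 / Real.log X ^ 2) := by
        apply add_le_add hyq
        exact hc3.trans (mul_le_mul_of_nonneg_left hV2 (by positivity))
    _ ≤ X / Real.log X ^ 2 * gg h + 5 * X * gg h * (4 * K ^ 2 * C1 ^ 2 / Real.log X ^ 2) := by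
        have h1 : (0 : ℝ) ≤ X / Real.log X ^ 2 := by positivity
        nlinarith
    _ = _ := by ring

/-- size of `gg` -/
theorem gg_le : ∃ C : ℝ, 1 ≤ C ∧ ∀ h z : ℕ, 1 ≤ h → 3 ≤ z → Real.log h ≤ z → gg h ≤ C * Real.log z := by
  classical
  obtain ⟨C0, hC0, hM⟩ := mert_prod
  have he1 : 1 ≤ Real.exp 2 := Real.one_le_exp (by norm_num)
  refine ⟨C0 * Real.exp 2, by nlinarith, fun h z hh hz hl => ?_⟩
  have hz0 : (0 : ℝ) < z := by exact_mod_cast (by omega : 0 < z)
  unfold gg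
  rw [← prod_filter_mul_prod_filter_not h.primeFactors (fun p => p ≤ z)]
  have h1 : ∏ p ∈ h.primeFactors.filter (fun p => p ≤ z), (1 + 1 / (p : ℝ)) ≤ C0 * Real.log z := by
    refine le_trans (prod_mono_one_add _ _ ?_) (hM z hz)
    intro p hp
    rw [mem_filter] at hp
    have hpp := Nat.prime_of_mem_primeFactors hp.1
    exact mem_filter.2 ⟨mem_Icc.2 ⟨hpp.one_le, hp.2⟩, hpp⟩
  have hcard : (h.primeFactors.card : ℝ) * Real.log 2 ≤ Real.log h := by
    have h2 : 2 ^ h.primeFactors.card ≤ h :=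
      (Finset.pow_card_le_prod _ _ _ (fun p hp => (Nat.prime_of_mem_primeFactors hp).two_le)).trans
        (Nat.le_of_dvd hh (Nat.prod_primeFactors_dvd _))
    have h3 : ((2 : ℝ) ^ h.primeFactors.card) ≤ h := by exact_mod_cast h2
    have h4 := Real.log_le_log (by positivity) h3
    rwa [Real.log_pow] at h4
  have h2 : ∏ p ∈ h.primeFactors.filter (fun p => ¬ p ≤ z), (1 + 1 / (p : ℝ)) ≤ Real.exp 2 := by
    calc ∏ p ∈ h.primeFactors.filter (fun p => ¬ p ≤ z), (1 + 1 / (p : ℝ))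
        ≤ ∏ p ∈ h.primeFactors.filter (fun p => ¬ p ≤ z), Real.exp (1 / z) := by
          apply Finset.prod_le_prod
          · intro p _; positivity
          · intro p hp
            rw [mem_filter] at hp
            have h3 : (z : ℝ) ≤ p := by exact_mod_cast (by omega : z ≤ p)
            have h4 : 1 / (p : ℝ) ≤ 1 / z := one_div_le_one_div_of_le hz0 h3
            have h5 := Real.add_one_le_exp (1 / (z : ℝ))
            linarith
      _ = Real.exp ((h.primeFactors.filter (fun p => ¬ p ≤ z)).card * (1 / z)) := by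
          rw [prod_const, ← Real.exp_nat_mul]
      _ ≤ Real.exp 2 := by
          apply Real.exp_le_exp.2
          have h3 : ((h.primeFactors.filter (fun p => ¬ p ≤ z)).card : ℝ) ≤ h.primeFactors.card := by
            exact_mod_cast card_le_card (filter_subset _ _)
          have h4 : (1 : ℝ) / 2 ≤ Real.log 2 := by linarith [Real.log_two_gt_d9]
          have h5 : (0 : ℝ) ≤ (h.primeFactors.filter (fun p => ¬ p ≤ z)).card := Nat.cast_nonneg _
          rw [mul_one_div, div_le_iff₀ hz0]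
          nlinarith
  have hlz : 0 ≤ C0 * Real.log z := by
    have : 0 ≤ Real.log z := Real.log_natCast_nonneg z
    positivity
  calc _ ≤ (C0 * Real.log z) * Real.exp 2 := mul_le_mul h1 h2 (prod_nonneg fun p _ => by positivity) hlz
    _ = _ := by ring

end Pool.Agent.H43.PT
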