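import Pool.Agent.H43.PT.Pairs

/-! # Prime pairs with a given difference: only the small prime factors of the difference matter (helper43) -/

set_option autoImplicit false

namespace Pool.Agent.H43.PT

open Finset Filter
open Pool.Agent.H373R2.T7 Pool.Agent.W93.HD

/-- the product of `1 + 1/p` over the primes `p ≤ y` which divide `h` -/
noncomputable def gy (y h : ℕ) : ℝ := ∏ p ∈ (pz y).filter (fun p => p ∣ h), (1 + 1 / (p : ℝ))

lemma gy_mono (y z h : ℕ) (hyz : y ≤ z) : gy y h ≤ gy z h := by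
  unfold gy
  apply prod_mono_one_add
  intro p hp
  rw [mem_filter] at hp ⊢
  refine ⟨?_, hp.2⟩
  have h1 := mem_filter.1 hp.1
  have h2 := mem_Icc.1 h1.1
  exact mem_filter.2 ⟨mem_Icc.2 ⟨h2.1, h2.2.trans hyz⟩, h1.2⟩

lemma one_le_gy (y h : ℕ) : 1 ≤ gy y h := one_le_prod_one_add _

/-- reduction modulo the primorial -/
lemma reduce (y h : ℕ) (hy : 1 ≤ y) : ∃ h' : ℕ, 1 ≤ h' ∧ (∀ a : ℕ, lamz y (a + h') = lamz y (a + h)) ∧
    gg h' ≤ Real.exp 3 * gy y h := by
  classical
  set M := primorial y with hM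
  have hM0 : 0 < M := primorial_pos y
  have hdvd : ∀ p ∈ pz y, p ∣ M := by
    intro p hp
    have h1 := mem_filter.1 hp
    have h2 := mem_Icc.1 h1.1
    rw [hM, primorial]
    exact dvd_prod_of_mem _ (mem_filter.2 ⟨mem_range.2 (by omega), h1.2⟩)
  have hmod : (h % M + M) ≡ h [MOD M] := by
    unfold Nat.ModEq
    rw [Nat.add_mod_right, Nat.mod_mod]
  have hdp : ∀ p ∈ pz y, ∀ a : ℕ, p ∣ a + (h % M + M) ↔ p ∣ a + h := by
    intro p hp a
    have h1 : (a + (h % M + M)) ≡ a + h [MOD p] := (Nat.ModEq.add_left a hmod).of_dvd (hdvd p hp)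
    rw [Nat.dvd_iff_mod_eq_zero, Nat.dvd_iff_mod_eq_zero]
    unfold Nat.ModEq at h1
    rw [h1]
  refine ⟨h % M + M, by omega, fun a => ?_, ?_⟩
  · unfold lamz
    have e : (∀ p ∈ pz y, ¬ p ∣ a + (h % M + M)) ↔ (∀ p ∈ pz y, ¬ p ∣ a + h) :=
      forall₂_congr fun p hp => not_congr (hdp p hp a)
    by_cases h1 : ∀ p ∈ pz y, ¬ p ∣ a + h
    · rw [if_pos (e.2 h1), if_pos h1]
    · rw [if_neg (fun h2 => h1 (e.1 h2)), if_neg h1]
  · set h' := h % M + M with hh'
    have hh1 : 1 ≤ h' := by omega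
    have hle : h' ≤ 2 ^ (3 * y) := by
      have h1 : h % M < M := Nat.mod_lt _ hM0
      have h2 : M ≤ 4 ^ y := primorial_le_four_pow y
      have h3 : (4 : ℕ) ^ y = 2 ^ (2 * y) := by rw [pow_mul]; norm_num
      have h4 : 2 ^ (3 * y) = 2 ^ (2 * y) * 2 ^ y := by rw [← pow_add]; congr 1; ring
      have h5 : 2 ≤ 2 ^ y := by
        calc 2 = 2 ^ 1 := by norm_num
          _ ≤ 2 ^ y := Nat.pow_le_pow_right (by norm_num) hy
      rw [h4]
      nlinarith
    have hcard : h'.primeFactors.card ≤ 3 * y := by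
      have h1 : 2 ^ h'.primeFactors.card ≤ ∏ p ∈ h'.primeFactors, p :=
        Finset.pow_card_le_prod _ _ _ (fun p hp => (Nat.prime_of_mem_primeFactors hp).two_le)
      have h2 : ∏ p ∈ h'.primeFactors, p ≤ h' := Nat.le_of_dvd hh1 (Nat.prod_primeFactors_dvd _)
      exact (Nat.pow_le_pow_iff_right (by norm_num)).1 (h1.trans (h2.trans hle))
    have hy0 : (0 : ℝ) < y := by exact_mod_cast hy
    unfold gg
    rw [← prod_filter_mul_prod_filter_not h'.primeFactors (fun p => p ≤ y)]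
    have h1 : ∏ p ∈ h'.primeFactors.filter (fun p => p ≤ y), (1 + 1 / (p : ℝ)) ≤ gy y h := by
      unfold gy
      apply prod_mono_one_add
      intro p hp
      rw [mem_filter] at hp
      have hpp := Nat.prime_of_mem_primeFactors hp.1
      have hpz : p ∈ pz y := mem_filter.2 ⟨mem_Icc.2 ⟨hpp.one_le, hp.2⟩, hpp⟩
      refine mem_filter.2 ⟨hpz, ?_⟩
      have h2 := (hdp p hpz 0).1 (by rw [zero_add]; exact Nat.dvd_of_mem_primeFactors hp.1)
      rwa [zero_add] at h2
    have h2 : ∏ p ∈ h'.primeFactors.filter (fun p => ¬ p ≤ y), (1 + 1 / (p : ℝ)) ≤ Real.exp 3 := by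
      calc ∏ p ∈ h'.primeFactors.filter (fun p => ¬ p ≤ y), (1 + 1 / (p : ℝ))
          ≤ ∏ p ∈ h'.primeFactors.filter (fun p => ¬ p ≤ y), Real.exp (1 / y) := by
            apply Finset.prod_le_prod
            · intro p _; positivity
            · intro p hp
              rw [mem_filter] at hp
              have h3 : (y : ℝ) ≤ p := by exact_mod_cast (by omega : y ≤ p)
              have h4 : 1 / (p : ℝ) ≤ 1 / y := one_div_le_one_div_of_le hy0 h3
              have h5 := Real.add_one_le_exp (1 / (y : ℝ))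
              linarith
        _ = Real.exp ((h'.primeFactors.filter (fun p => ¬ p ≤ y)).card * (1 / y)) := by
            rw [prod_const, ← Real.exp_nat_mul]
        _ ≤ Real.exp 3 := by
            apply Real.exp_le_exp.2
            have h3 : ((h'.primeFactors.filter (fun p => ¬ p ≤ y)).card : ℝ) ≤ 3 * y := by
              exact_mod_cast (card_le_card (filter_subset _ _)).trans hcard
            rw [mul_one_div, div_le_iff₀ hy0]
            exact h3
    calc _ ≤ gy y h * Real.exp 3 := mul_le_mul h1 h2 (prod_nonneg fun p _ => by positivity) (by linarith [one_le_gy y h])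
      _ = _ := by ring

/-- upper bound for prime pairs, in terms of the prime factors `≤ X` of the difference -/
theorem pairs2 : ∃ C : ℝ, 1 ≤ C ∧ ∃ X0 : ℕ, ∀ X : ℕ, X0 ≤ X → ∀ h : ℕ, 1 ≤ h →
    (((Icc 1 X).filter (fun m => m.Prime ∧ (m + h).Prime)).card : ℝ) ≤ C * X / Real.log X ^ 2 * gy X h := by
  classical
  obtain ⟨K, x0, hK, hP⟩ := pair_lamz
  obtain ⟨C1, hC1, hV⟩ := Vz_log_le
  have hK0 : (0 : ℝ) < K := by exact_mod_cast (by omega : 0 < K)
  have hK4 : (4 : ℝ) ≤ K := by exact_mod_cast hK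
  have e1 : ∀ᶠ X : ℕ in atTop, (max (x0 : ℝ) 3) + 1 ≤ (X : ℝ) ^ (1 / (2 * K) : ℝ) :=
    ((tendsto_rpow_atTop (by positivity)).comp (tendsto_natCast_atTop_atTop (R := ℝ))).eventually_ge_atTop _
  obtain ⟨n1, hn1⟩ := eventually_atTop.1 e1
  obtain ⟨n2, hn2⟩ := ev_log' 2 1
  have he3 : 1 ≤ Real.exp 3 := Real.one_le_exp (by norm_num)
  refine ⟨1 + 20 * Real.exp 3 * K ^ 2 * C1 ^ 2, by
    have : 0 ≤ 20 * Real.exp 3 * K ^ 2 * C1 ^ 2 := by positivity
    linarith, max n1 (max n2 3), fun X hX h hh => ?_⟩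
  have b1 := hn1 X ((le_max_left _ _).trans hX)
  have b2 := hn2 X (((le_max_left _ _).trans (le_max_right _ _)).trans hX)
  have b3 : 3 ≤ X := ((le_max_right _ _).trans (le_max_right _ _)).trans hX
  rw [one_mul] at b2
  have hX3 : (3 : ℝ) ≤ X := by exact_mod_cast b3
  have hX0 : (0 : ℝ) < X := by linarith
  have hX1 : (1 : ℝ) ≤ X := by linarith
  have hL0 : 0 < Real.log X := Real.log_pos (by linarith)
  set t : ℝ := (X : ℝ) ^ (1 / (2 * K) : ℝ) with ht
  have ht4 : 4 ≤ t := le_trans (by linarith [le_max_right (x0 : ℝ) 3]) b1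
  have htx : (x0 : ℝ) + 1 ≤ t := le_trans (by linarith [le_max_left (x0 : ℝ) 3]) b1
  have ht2 : (X : ℝ) ^ (1 / (K : ℝ)) = t ^ 2 := by
    rw [ht, ← Real.rpow_natCast, ← Real.rpow_mul hX0.le]
    congr 1
    push_cast
    field_simp
  set y : ℕ := ⌊(X : ℝ) ^ (1 / (K : ℝ))⌋₊ with hy
  have hy1 : (y : ℝ) ≤ (X : ℝ) ^ (1 / (K : ℝ)) := Nat.floor_le (by positivity)
  have hy2 : t ≤ y := by
    have h1 := Nat.lt_floor_add_one ((X : ℝ) ^ (1 / (K : ℝ)))
    rw [← hy, ht2] at h1
    nlinarith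
  have hyx0 : x0 ≤ y := by
    have : (x0 : ℝ) ≤ y := by linarith
    exact_mod_cast this
  have hy3 : 3 ≤ y := by
    have : (3 : ℝ) ≤ y := by linarith
    exact_mod_cast this
  have hyK : y ^ K ≤ X := by
    have h1 : (y : ℝ) ^ K ≤ X := by
      calc (y : ℝ) ^ K ≤ ((X : ℝ) ^ (1 / (K : ℝ))) ^ K := pow_le_pow_left₀ (by positivity) hy1 K
        _ = X := by
            rw [← Real.rpow_natCast, ← Real.rpow_mul hX0.le, one_div, inv_mul_cancel₀ hK0.ne', Real.rpow_one]
    exact_mod_cast h1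
  have hyX : y ≤ X := le_trans (Nat.le_self_pow (by omega) y) hyK
  have hlogy : Real.log X ≤ 2 * K * Real.log y := by
    have h1 : Real.log t ≤ Real.log y := Real.log_le_log (by linarith) hy2
    rw [ht, Real.log_rpow hX0] at h1
    have h2 : 2 * K * (1 / (2 * K) * Real.log X) ≤ 2 * K * Real.log y := mul_le_mul_of_nonneg_left h1 (by positivity)
    have h3 : 2 * (K : ℝ) * (1 / (2 * K) * Real.log X) = Real.log X := by field_simp
    linarith
  have hyq : (y : ℝ) ≤ X / Real.log X ^ 2 := by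
    have h1 : (y : ℝ) ≤ √X := by
      refine hy1.trans ?_
      rw [Real.sqrt_eq_rpow]
      apply Real.rpow_le_rpow_of_exponent_le hX1
      rw [one_div, one_div]
      apply inv_anti₀ (by norm_num)
      linarith
    rw [le_div_iff₀ (by positivity)]
    calc (y : ℝ) * Real.log X ^ 2 ≤ √X * √X := mul_le_mul h1 b2 (by positivity) (by positivity)
      _ = X := Real.mul_self_sqrt hX0.le
  obtain ⟨h', hh', hla, hgg'⟩ := reduce y h (by omega)
  obtain ⟨-, hS⟩ := hP X y hyx0 hyK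
  have hS : ∑ a ∈ Icc 1 X, lamz y a * lamz y (a + h) ≤ 5 * X * (Real.exp 3 * gy X h) := by
    have h1 := hS h' hh'
    have h2 : ∑ a ∈ Icc 1 X, lamz y a * lamz y (a + h) = ∑ a ∈ Icc 1 X, lamz y a * lamz y (a + h') :=
      sum_congr rfl fun a _ => by rw [hla a]
    rw [h2]
    refine h1.trans (mul_le_mul_of_nonneg_left (hgg'.trans ?_) (by positivity))
    exact mul_le_mul_of_nonneg_left (gy_mono y X h hyX) (by positivity)
  have hVp : 0 < Vz y := Vz_pos y
  have hgg := one_le_gy X h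
  set F := (Icc 1 X).filter (fun m => m.Prime ∧ (m + h).Prime) with hF
  have hsub : F ⊆ Icc 1 y ∪ F.filter (fun m => y < m) := by
    intro m hm
    rw [mem_union, mem_filter]
    by_cases h1 : y < m
    · right; exact ⟨hm, h1⟩
    · left
      have h2 := (mem_Icc.1 (mem_filter.1 hm).1).1
      exact mem_Icc.2 ⟨h2, by omega⟩
  have hc1 : (F.card : ℝ) ≤ y + (F.filter (fun m => y < m)).card := by
    have h1 := (card_le_card hsub).trans (card_union_le _ _)
    rw [Nat.card_Icc, Nat.add_sub_cancel] at h1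
    exact_mod_cast h1
  have hc2 : ((F.filter (fun m => y < m)).card : ℝ) * ((Vz y)⁻¹ * (Vz y)⁻¹) ≤ 5 * X * (Real.exp 3 * gy X h) := by
    refine le_trans ?_ hS
    have h1 : ((F.filter (fun m => y < m)).card : ℝ) * ((Vz y)⁻¹ * (Vz y)⁻¹) =
        ∑ a ∈ F.filter (fun m => y < m), lamz y a * lamz y (a + h) := by
      rw [← nsmul_eq_mul, ← sum_const]
      refine sum_congr rfl fun m hm => ?_
      have h2 := mem_filter.1 hm
      have h3 := (mem_filter.1 h2.1).2
      rw [lamz_prime y m h3.1 h2.2, lamz_prime y (m + h) h3.2 (by omega)]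
    rw [h1]
    apply sum_le_sum_of_subset_of_nonneg
    · exact (filter_subset _ _).trans (filter_subset _ _)
    · intro m _ _
      exact mul_nonneg (lamz_nonneg _ _) (lamz_nonneg _ _)
  have hc3 : ((F.filter (fun m => y < m)).card : ℝ) ≤ 5 * X * (Real.exp 3 * gy X h) * Vz y ^ 2 := by
    have h1 := mul_le_mul_of_nonneg_right hc2 (show 0 ≤ Vz y ^ 2 by positivity)
    refine le_trans (le_of_eq ?_) h1
    field_simp
  have hVy : Vz y ≤ 2 * K * C1 / Real.log X := by
    rw [le_div_iff₀ hL0]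
    have h1 := hV y hy3
    calc Vz y * Real.log X ≤ Vz y * (2 * K * Real.log y) := mul_le_mul_of_nonneg_left hlogy hVp.le
      _ = 2 * K * (Vz y * Real.log y) := by ring
      _ ≤ 2 * K * C1 := mul_le_mul_of_nonneg_left h1 (by positivity)
  have hV2 : Vz y ^ 2 ≤ 4 * K ^ 2 * C1 ^ 2 / Real.log X ^ 2 := by
    calc Vz y ^ 2 ≤ (2 * K * C1 / Real.log X) ^ 2 := pow_le_pow_left₀ hVp.le hVy 2
      _ = _ := by rw [div_pow]; ring
  calc (F.card : ℝ) ≤ y + (F.filter (fun m => y < m)).card := hc1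
    _ ≤ X / Real.log X ^ 2 + 5 * X * (Real.exp 3 * gy X h) * (4 * K ^ 2 * C1 ^ 2 / Real.log X ^ 2) := by
        apply add_le_add hyq
        exact hc3.trans (mul_le_mul_of_nonneg_left hV2 (by positivity))
    _ ≤ X / Real.log X ^ 2 * gy X h + 5 * X * (Real.exp 3 * gy X h) * (4 * K ^ 2 * C1 ^ 2 / Real.log X ^ 2) := by
        have h1 : (0 : ℝ) ≤ X / Real.log X ^ 2 := by positivity
        nlinarith
    _ = _ := by ring

/-- the small primes which do not divide the difference -/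
theorem sum_inv_le (n h : ℕ) (C0 G : ℝ) (hG : 0 < G) (h1 : G ≤ gy n h)
    (h2 : ∏ p ∈ pz n, (1 + 1 / (p : ℝ)) ≤ C0) : ∑ p ∈ (pz n).filter (fun p => ¬ p ∣ h), 1 / (p : ℝ) ≤ C0 / G := by
  classical
  rw [← prod_filter_mul_prod_filter_not (pz n) (fun p => p ∣ h)] at h2
  have h3 : ∑ p ∈ (pz n).filter (fun p => ¬ p ∣ h), 1 / (p : ℝ) ≤ ∏ p ∈ (pz n).filter (fun p => ¬ p ∣ h), (1 + 1 / (p : ℝ)) := by
    have h5 : ∀ T : Finset ℕ, 1 + ∑ p ∈ T, 1 / (p : ℝ) ≤ ∏ p ∈ T, (1 + 1 / (p : ℝ)) := by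
      intro T
      induction T using Finset.induction_on with
      | empty => simp
      | insert a s ha ih =>
        rw [prod_insert ha, sum_insert ha]
        have h6 : (0 : ℝ) ≤ 1 / a := by positivity
        have h7 := one_le_prod_one_add s
        nlinarith
    linarith [h5 ((pz n).filter (fun p => ¬ p ∣ h))]
  refine h3.trans ?_
  rw [le_div_iff₀ hG]
  have h5 := one_le_prod_one_add ((pz n).filter (fun p => ¬ p ∣ h))
  unfold gy at h1
  calc _ ≤ (∏ p ∈ (pz n).filter (fun p => ¬ p ∣ h), (1 + 1 / (p : ℝ))) * ∏ p ∈ (pz n).filter (fun p => p ∣ h), (1 + 1 / (p : ℝ)) :=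
        mul_le_mul_of_nonneg_left h1 (by linarith)
    _ ≤ C0 := by rw [mul_comm]; exact h2

end Pool.Agent.H43.PT
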